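import Pool.Agent.Q231.TD.Geo
import Pool.Agent.Q231.TD.Path

/-!
The shadow vertex method makes a polynomial number of pivots on all linear programs whose
incidence graph has bounded treedepth.
-/

set_option autoImplicit false

open Finset

namespace Pool.Agent.Results.MP_4d246d_lc.BoundedTreedepth

/-- the polyhedron of the points `x ≥ 0` with `A x ≤ b` -/
def Feasible {m n : ℕ} (A : Matrix (Fin m) (Fin n) ℚ) (b : Fin m → ℚ) : Set (Fin n → ℝ) :=
  {x | (∀ j, 0 ≤ x j) ∧ ∀ i, ∑ j, (A i j : ℝ) * x j ≤ (b i : ℝ)}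

/-- the value of the point `x` for the objective function `w` -/
def value {n : ℕ} (w x : Fin n → ℝ) : ℝ := ∑ j, w j * x j

/-- `v` is the unique maximizer of the objective function `w` -/
def UniqueMax {m n : ℕ} (A : Matrix (Fin m) (Fin n) ℚ) (b : Fin m → ℚ) (w v : Fin n → ℝ) : Prop :=
  v ∈ Feasible A b ∧ ∀ y ∈ Feasible A b, y ≠ v → value w y < value w v

/-- the set of all maximizers of `w` -/
def MaxFace {m n : ℕ} (A : Matrix (Fin m) (Fin n) ℚ) (b : Fin m → ℚ) (w : Fin n → ℝ) :
    Set (Fin n → ℝ) :=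
  {v ∈ Feasible A b | ∀ y ∈ Feasible A b, value w y ≤ value w v}

/-- `v` and `v'` are joined by a bounded edge -/
def Edge {m n : ℕ} (A : Matrix (Fin m) (Fin n) ℚ) (b : Fin m → ℚ) (v v' : Fin n → ℝ) : Prop :=
  v ≠ v' ∧ IsExposed ℝ (Feasible A b) (segment ℝ v v')

/-- there is an unbounded edge at `v` in the direction `u` -/
def UnboundedEdge {m n : ℕ} (A : Matrix (Fin m) (Fin n) ℚ) (b : Fin m → ℚ) (v u : Fin n → ℝ) :
    Prop :=
  u ≠ 0 ∧ IsExposed ℝ (Feasible A b) {y | ∃ t : ℝ, 0 ≤ t ∧ y = v + t • u}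

/-- The incidence graph of `A` (a vertex for each row and for each column, an edge for each nonzero
entry) has treedepth at most `k`: its vertices are distinct nodes, given by their addresses, of a
rooted forest of height at most `k`, and adjacent vertices are ancestor and descendant. -/
def TreedepthLE {m n : ℕ} (A : Matrix (Fin m) (Fin n) ℚ) (k : ℕ) : Prop :=
  ∃ p : Fin m ⊕ Fin n → List ℕ, Function.Injective p ∧
    (∀ e, 1 ≤ (p e).length ∧ (p e).length ≤ k) ∧
    ∀ i j, A i j ≠ 0 → p (Sum.inl i) <+: p (Sum.inr j) ∨ p (Sum.inr j) <+: p (Sum.inl i)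

/-- the objective function `c + μ d` -/
def shifted {n : ℕ} (c d : Fin n → ℚ) (μ : ℝ) (j : Fin n) : ℝ := (c j : ℝ) + μ * (d j : ℝ)

/-- The direction `d` is in general position: for each `μ > 0` the maximizers of `c + μ d` lie on a
line. -/
def GeneralPosition {m n : ℕ} (A : Matrix (Fin m) (Fin n) ℚ) (b : Fin m → ℚ) (c d : Fin n → ℚ) :
    Prop :=
  ∀ μ : ℝ, 0 < μ → Collinear ℝ (MaxFace A b (shifted c d μ))

open Classical in
/-- The direction used at the vertex `v₀`: the sum of the normals of all constraints (of `A x ≤ b`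
and `- x ≤ 0`) which are tight at `v₀`, plus the vector `(q, q ^ 2, …, q ^ n)`. -/
noncomputable def startDirection {m n : ℕ} (A : Matrix (Fin m) (Fin n) ℚ) (b : Fin m → ℚ)
    (v₀ : Fin n → ℝ) (q : ℚ) (j : Fin n) : ℚ :=
  (∑ i, if ∑ j', (A i j' : ℝ) * v₀ j' = (b i : ℝ) then A i j else 0) -
    (if v₀ j = 0 then 1 else 0) + q ^ (j.val + 1)

/-- A complete path of the shadow vertex method with direction `d`, with `N` pivots. -/
structure IsShadowPath {m n : ℕ} (A : Matrix (Fin m) (Fin n) ℚ) (b : Fin m → ℚ) (c d : Fin n → ℚ)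
    (v₀ : Fin n → ℝ) (N : ℕ) (v : ℕ → Fin n → ℝ) (μ : ℕ → ℝ) : Prop where
  /-- it starts at the given vertex -/
  start : v 0 = v₀
  /-- all points are vertices -/
  vertex : ∀ i ≤ N, v i ∈ (Feasible A b).extremePoints ℝ
  /-- they are the maximizers of `c + μ d` for decreasing positive `μ` -/
  pos : ∀ i ≤ N, 0 < μ i
  decreasing : ∀ i < N, μ (i + 1) < μ i
  umax : ∀ i ≤ N, UniqueMax A b (shifted c d (μ i)) (v i)
  /-- each step is along an edge which increases the objective function -/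
  edge : ∀ i < N, Edge A b (v i) (v (i + 1))
  increasing : ∀ i < N, value (fun j => (c j : ℝ)) (v i) < value (fun j => (c j : ℝ)) (v (i + 1))
  /-- the last vertex is optimal, or an unbounded edge increases the objective function -/
  final : (∀ y ∈ Feasible A b, value (fun j => (c j : ℝ)) y ≤ value (fun j => (c j : ℝ)) (v N)) ∨
    ∃ u, UnboundedEdge A b (v N) u ∧ 0 < value (fun j => (c j : ℝ)) u

/-! ### translation -/

section

open Pool.Agent.Q231.TD

variable {m n : ℕ} (A : Matrix (Fin m) (Fin n) ℚ) (b : Fin m → ℚ)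

/-- the normals of the constraints -/
def nrm (k : Fin m ⊕ Fin n) (j : Fin n) : ℚ :=
  Sum.elim (fun i => A i j) (fun j' => if j' = j then -1 else 0) k

/-- the right-hand sides -/
def rhs (k : Fin m ⊕ Fin n) : ℝ := Sum.elim (fun i => (b i : ℝ)) (fun _ => 0) k

theorem poly_eq : Path.Poly (fun k j => (nrm A k j : ℝ)) (rhs b) = Feasible A b := by
  ext x
  have h1 : ∀ j' : Fin n, Path.val (fun j => (nrm A (Sum.inr j') j : ℝ)) x = - x j' := by
    intro j'
    unfold Path.val
    rw [sum_eq_single j']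
    · simp [nrm]
    · intro j _ hj
      simp [nrm, Ne.symm hj]
    · intro h
      exact absurd (mem_univ _) h
  constructor
  · intro h
    refine ⟨fun j => ?_, fun i => h (Sum.inl i)⟩
    have := h (Sum.inr j)
    rw [h1] at this
    have h2 : rhs b (Sum.inr j) = 0 := rfl
    linarith
  · rintro ⟨h, h'⟩ (i | j)
    · exact h' i
    · have h2 : rhs b (Sum.inr j) = 0 := rfl
      show Path.val (fun j' => (nrm A (Sum.inr j) j' : ℝ)) x ≤ rhs b (Sum.inr j)
      rw [h1, h2]
      linarith [h j]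

theorem dir_eq (v₀ : Fin n → ℝ) (q : ℚ) (j : Fin n) : startDirection A b v₀ q j =
    (open Classical in ∑ k, if Path.val (fun j => (nrm A k j : ℝ)) v₀ = rhs b k then nrm A k j
      else 0) + q ^ (j.val + 1) := by
  classical
  have h1 : ∀ j' : Fin n, Path.val (fun j => (nrm A (Sum.inr j') j : ℝ)) v₀ = - v₀ j' := by
    intro j'
    unfold Path.val
    rw [sum_eq_single j']
    · simp [nrm]
    · intro j _ hj
      simp [nrm, Ne.symm hj]
    · intro h
      exact absurd (mem_univ _) h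
  unfold startDirection
  rw [Fintype.sum_sum_type, sub_eq_add_neg]
  congr 2
  · rw [sum_eq_single j]
    · have h2 : Path.val (fun j' => (nrm A (Sum.inr j) j' : ℝ)) v₀ = rhs b (Sum.inr j) ↔
          v₀ j = 0 := by
        rw [h1, show rhs b (Sum.inr j) = 0 from rfl, neg_eq_zero]
      by_cases h3 : v₀ j = 0
      · rw [if_pos h3, if_pos (h2.2 h3)]
        simp [nrm]
      · rw [if_neg h3, if_neg (fun h => h3 (h2.1 h)), neg_zero]
    · intro j' _ hj'
      simp [nrm, hj']
    · intro h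
      exact absurd (mem_univ _) h

theorem arg_eq (w : Fin n → ℝ) :
    Path.Arg (fun k j => (nrm A k j : ℝ)) (rhs b) w = MaxFace A b w := by
  unfold Path.Arg MaxFace
  rw [poly_eq]
  rfl

theorem shifted_eq (c d : Fin n → ℚ) (μ : ℝ) :
    shifted c d μ = (fun j => (c j : ℝ)) + μ • fun j => (d j : ℝ) := by
  ext j
  rfl

theorem exposed_of_maxFace {w : Fin n → ℝ} {S : Set (Fin n → ℝ)} (h : MaxFace A b w = S) :
    IsExposed ℝ (Feasible A b) S := by
  intro _
  let l : (Fin n → ℝ) →ₗ[ℝ] ℝ := ∑ j, w j • LinearMap.proj j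
  have hl : ∀ x, l x = value w x := by
    intro x
    simp [l, value, LinearMap.sum_apply]
  refine ⟨LinearMap.toContinuousLinearMap l, ?_⟩
  rw [← h]
  ext x
  unfold MaxFace
  simp only [Set.mem_ofPred_eq, LinearMap.coe_toContinuousLinearMap', hl]

theorem extreme_of_umax {w v : Fin n → ℝ} (h : UniqueMax A b w v) :
    v ∈ (Feasible A b).extremePoints ℝ := by
  rw [mem_extremePoints]
  refine ⟨h.1, ?_⟩
  rintro x hx y hy ⟨s, t, hs, ht, hst, rfl⟩
  have hval : value w (s • x + t • y) = s * value w x + t * value w y := by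
    have := Path.val_add w (s • x) (t • y)
    rw [Path.val_smul, Path.val_smul] at this
    exact this
  have hxv : value w x ≤ value w (s • x + t • y) := by
    by_cases hne : x = s • x + t • y
    · exact le_of_eq (congrArg _ hne)
    · exact (h.2 x hx hne).le
  have hyv : value w y ≤ value w (s • x + t • y) := by
    by_cases hne : y = s • x + t • y
    · exact le_of_eq (congrArg _ hne)
    · exact (h.2 y hy hne).le
  have hts : s = 1 - t := by linarith
  constructor
  · by_contra hne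
    have h1 := h.2 x hx hne
    have h2 := mul_lt_mul_of_pos_left h1 hs
    have h3 := mul_le_mul_of_nonneg_left hyv ht.le
    have h4 : s * value w (s • x + t • y) + t * value w (s • x + t • y) =
      value w (s • x + t • y) := by rw [← add_mul, hst, one_mul]
    linarith
  · by_contra hne
    have h1 := h.2 y hy hne
    have h2 := mul_lt_mul_of_pos_left h1 ht
    have h3 := mul_le_mul_of_nonneg_left hxv hs.le
    have h4 : s * value w (s • x + t • y) + t * value w (s • x + t • y) =
      value w (s • x + t • y) := by rw [← add_mul, hst, one_mul]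
    linarith

/-- the number of pivots -/
theorem count_le {k : ℕ} (hA : TreedepthLE A k) (c : Fin n → ℚ) (p : ℕ)
    (d : Fin p → Fin n → ℚ) :
    {v | ∃ μ : Fin p → ℝ, UniqueMax A b (fun j => (c j : ℝ) + ∑ t, μ t * (d t j : ℝ)) v}.Finite ∧
    {v | ∃ μ : Fin p → ℝ, UniqueMax A b (fun j => (c j : ℝ) + ∑ t, μ t * (d t j : ℝ)) v}.ncard ≤
      (m + n + 1) ^ (2 * ∑ i ∈ range k, p.ascFactorial (i + 1)) := by
  obtain ⟨f, hf, hlen, hadj⟩ := hA
  have h1 : TDle A k univ univ :=
    td_of_addr k univ univ f (fun e _ e' _ h => hf h) (fun e _ => hlen e)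
      fun i _ j _ h => hadj i j h
  have h2 := umax_ncard b c d h1
  rw [ex_eq, Fintype.card_fin, Fintype.card_fin, ← pow_mul] at h2
  exact h2

end

/-- **Theorem.** Let `A` be a rational `m × n` matrix whose incidence graph has treedepth at most
`k`, `b` and `c` rational vectors, and `P` the polyhedron of the points `x ≥ 0` with `A x ≤ b`.

(1) For all directions `d_1, …, d_p` the number of vertices of `P` which are the unique maximizer of
`c + μ_1 d_1 + … + μ_p d_p` for some real numbers `μ_t` is at most `(m + n + 1) ^ (2 E)` with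
`E = p + p (p + 1) + … + p (p + 1) ⋯ (p + k - 1)`.

(2) For each direction `d` in general position and each `v₀` which is the unique maximizer of `d`
there is a complete path of the shadow vertex method with fewer than
`(m + n + 1) ^ (2 (1! + 2! + … + k!))` pivots, which starts at `v₀`.

(3) For each vertex `v₀` and all sufficiently small `q > 0` the sum of the normals of the constraints
tight at `v₀`, plus `(q, q ^ 2, …, q ^ n)`, is such a direction. -/
theorem result (m n k : ℕ) (A : Matrix (Fin m) (Fin n) ℚ) (hA : TreedepthLE A k) (b : Fin m → ℚ)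
    (c : Fin n → ℚ) :
    (∀ (p : ℕ) (d : Fin p → Fin n → ℚ),
      {v | ∃ μ : Fin p → ℝ,
        UniqueMax A b (fun j => (c j : ℝ) + ∑ t, μ t * (d t j : ℝ)) v}.Finite ∧
      {v | ∃ μ : Fin p → ℝ,
        UniqueMax A b (fun j => (c j : ℝ) + ∑ t, μ t * (d t j : ℝ)) v}.ncard ≤
        (m + n + 1) ^ (2 * ∑ i ∈ range k, p.ascFactorial (i + 1))) ∧
    (∀ (d : Fin n → ℚ) (v₀ : Fin n → ℝ), UniqueMax A b (fun j => (d j : ℝ)) v₀ →
      GeneralPosition A b c d → ∃ (N : ℕ) (v : ℕ → Fin n → ℝ) (μ : ℕ → ℝ),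
        IsShadowPath A b c d v₀ N v μ ∧
        N < (m + n + 1) ^ (2 * ∑ i ∈ range k, (i + 1).factorial)) ∧
    ∀ v₀ ∈ (Feasible A b).extremePoints ℝ, ∃ q₀ : ℝ, 0 < q₀ ∧ ∀ q : ℚ, 0 < q → (q : ℝ) < q₀ →
      UniqueMax A b (fun j => (startDirection A b v₀ q j : ℝ)) v₀ ∧
      GeneralPosition A b c (startDirection A b v₀ q) := by
  refine ⟨fun p d => count_le A b hA c p d, ?_, ?_⟩
  · intro d v₀ hv₀ hgen
    set a : Fin m ⊕ Fin n → Fin n → ℝ := fun k j => (nrm A k j : ℝ) with ha
    have hP : Pool.Agent.Q231.TD.Path.Poly a (rhs b) = Feasible A b := poly_eq A b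
    have hgen' : Pool.Agent.Q231.TD.Path.GenPos a (rhs b) (fun j => (c j : ℝ))
        (fun j => (d j : ℝ)) := by
      intro μ hμ
      rw [arg_eq, ← shifted_eq]
      exact hgen μ hμ
    set V : Set (Fin n → ℝ) := {v | ∃ μ : Fin 1 → ℝ,
      UniqueMax A b (fun j => (c j : ℝ) + ∑ t, μ t * ((fun _ => d : Fin 1 → Fin n → ℚ) t j : ℝ)) v}
      with hV
    obtain ⟨hfin, hcard⟩ := count_le A b hA c 1 fun _ => d
    have hexp : ∑ i ∈ range k, (1 : ℕ).ascFactorial (i + 1) = ∑ i ∈ range k, (i + 1).factorial :=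
      sum_congr rfl fun i _ => Nat.one_ascFactorial _
    rw [hexp] at hcard
    have hum : ∀ (w v : Fin n → ℝ), v ∈ Pool.Agent.Q231.TD.Path.Poly a (rhs b) →
        (∀ u ∈ Pool.Agent.Q231.TD.Path.Cone a (rhs b) v, u ≠ 0 →
          Pool.Agent.Q231.TD.Path.val w u < 0) → UniqueMax A b w v := by
      intro w v hv hu
      have h1 := (Pool.Agent.Q231.TD.Path.umax_iff hv).2 hu
      rw [hP] at h1 hv
      exact ⟨hv, h1⟩
    have hmem : ∀ v ∈ Pool.Agent.Q231.TD.Path.Poly a (rhs b), ∀ μ : ℝ, 0 < μ →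
        (∀ u ∈ Pool.Agent.Q231.TD.Path.Cone a (rhs b) v, u ≠ 0 →
          Pool.Agent.Q231.TD.Path.val ((fun j => (c j : ℝ)) + μ • fun j => (d j : ℝ)) u < 0) →
        v ∈ V := by
      intro v hv μ _ hu
      refine ⟨fun _ => μ, ?_⟩
      have h1 := hum _ v hv hu
      have h2 : (fun j => (c j : ℝ) + ∑ t : Fin 1, (fun _ => μ : Fin 1 → ℝ) t * (d j : ℝ)) =
          (fun j => (c j : ℝ)) + μ • fun j => (d j : ℝ) := by
        ext j
        simp
      rw [h2]
      exact h1
    -- the first value of the parameter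
    have hv₀P : v₀ ∈ Pool.Agent.Q231.TD.Path.Poly a (rhs b) := by rw [hP]; exact hv₀.1
    have hd : ∀ u ∈ Pool.Agent.Q231.TD.Path.Cone a (rhs b) v₀, u ≠ 0 →
        Pool.Agent.Q231.TD.Path.val (fun j => (d j : ℝ)) u < 0 := by
      rw [← Pool.Agent.Q231.TD.Path.umax_iff hv₀P, hP]
      exact hv₀.2
    obtain ⟨ε0, hε0, hsw⟩ := Pool.Agent.Q231.TD.Path.switch (a := a) (β := rhs b) (v := v₀)
      (g := fun j => (d j : ℝ)) (h := fun j => (c j : ℝ))
      fun u hu hu0 => ⟨(hd u hu hu0).le, fun h => absurd h (hd u hu hu0).ne⟩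
    have h3 := hsw (ε0 / 2) (by positivity) (by linarith)
    have hstart : ∀ u ∈ Pool.Agent.Q231.TD.Path.Cone a (rhs b) v₀, u ≠ 0 →
        Pool.Agent.Q231.TD.Path.val ((fun j => (c j : ℝ)) + (ε0 / 2)⁻¹ • fun j => (d j : ℝ)) u
          < 0 := by
      intro u hu hu0
      have h4 := h3 u hu hu0
      have e : (fun j => (c j : ℝ)) + (ε0 / 2)⁻¹ • (fun j => (d j : ℝ)) =
          (ε0 / 2)⁻¹ • ((fun j => (d j : ℝ)) + (ε0 / 2) • fun j => (c j : ℝ)) := by
        rw [smul_add, ← mul_smul, inv_mul_cancel₀ (by positivity), one_smul, add_comm]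
      rw [e, Pool.Agent.Q231.TD.Path.smul_val]
      exact mul_neg_of_pos_of_neg (by positivity) h4
    obtain ⟨N, v, μ, hN, hv0, -, hv, hs, ht⟩ := Pool.Agent.Q231.TD.Path.path_exists hgen' hfin
      hmem _ v₀ _ hv₀P (inv_pos.2 (show 0 < ε0 / 2 by positivity)) hstart le_rfl
    have hum' : ∀ i ≤ N, UniqueMax A b (shifted c d (μ i)) (v i) := by
      intro i hi
      rw [shifted_eq]
      exact hum _ _ (hv i hi).1 (hv i hi).2.2
    refine ⟨N, v, μ, ⟨hv0, fun i hi => extreme_of_umax A b (hum' i hi), fun i hi => (hv i hi).2.1,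
      fun i hi => (hs i hi).1, hum', ?_, fun i hi => (hs i hi).2.1, ?_⟩, ?_⟩
    · intro i hi
      obtain ⟨-, h5, w, hw⟩ := hs i hi
      refine ⟨?_, exposed_of_maxFace A b (w := w) (by rw [← arg_eq]; exact hw)⟩
      intro h6
      rw [h6] at h5
      exact lt_irrefl _ h5
    · rcases ht with h5 | ⟨u, hu, w, hw⟩
      · left
        rw [hP] at h5
        exact h5
      · right
        refine ⟨u, ⟨?_, exposed_of_maxFace A b (w := w) (by rw [← arg_eq]; exact hw)⟩, hu⟩
        rintro rfl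
        rw [Pool.Agent.Q231.TD.Path.val_zero] at hu
        exact lt_irrefl _ hu
    · have h5 : {v' ∈ V | Pool.Agent.Q231.TD.Path.val (fun j => (c j : ℝ)) v₀ <
          Pool.Agent.Q231.TD.Path.val (fun j => (c j : ℝ)) v'}.ncard < V.ncard := by
        apply Set.ncard_lt_ncard _ hfin
        refine ⟨fun x hx => hx.1, fun h => ?_⟩
        have h6 : v₀ ∈ V := hmem v₀ hv₀P _ (inv_pos.2 (show 0 < ε0 / 2 by positivity)) hstart
        exact lt_irrefl _ (h h6).2
      exact lt_of_le_of_lt hN (lt_of_lt_of_le h5 hcard)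
  · intro v₀ hv₀
    rw [← poly_eq] at hv₀
    obtain ⟨q₀, hq₀, hq⟩ := Pool.Agent.Q231.TD.Path.exists_dir (nrm A) (rhs b)
      (fun j => (c j : ℝ)) hv₀ (fun j : Fin n => j.val) Fin.val_injective _ rfl
    refine ⟨q₀, hq₀, fun q h1 h2 => ?_⟩
    obtain ⟨hd, hg⟩ := hq q h1 h2
    simp only [← dir_eq] at hd hg
    have hP : v₀ ∈ Pool.Agent.Q231.TD.Path.Poly (fun k j => (nrm A k j : ℝ)) (rhs b) := hv₀.1
    refine ⟨⟨?_, ?_⟩, ?_⟩
    · rw [← poly_eq]; exact hP
    · have := (Pool.Agent.Q231.TD.Path.umax_iff hP).2 hd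
      rw [poly_eq] at this
      exact this
    · intro μ hμ
      have := Pool.Agent.Q231.TD.Path.generic_genPos (β := rhs b) hg μ hμ
      rw [arg_eq, ← shifted_eq] at this
      exact this

end Pool.Agent.Results.MP_4d246d_lc.BoundedTreedepth
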