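import Pool.Agent.Q218.AR2.Many
set_option autoImplicit false

/-!
# Deterministic pivot rules, and pivot rules with few random bits, need `2 ^ Ω(√(n / log n))` steps

`flip x i` is the neighbour of the vertex `x` of the `n`-cube in direction `i`, and `improving f x` the
set of directions `i` with `f x < f (flip x i)`. A rule sees all the vertices visited so far, with their
objective values and their sets of improving directions (`seen`, the current vertex first), and chooses
an improving direction. It may use all this information in any way: no bound on memory or computation.

For any `M` such rules with arbitrary start vertices there is ONE objective function with exactly one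
local maximum on every face on which each of the `M` rules makes at least `2 ^ k` steps, whenever
`320 k (⌊log₂ k⌋ + 1) (4 k + M) ≤ n`.

* One rule (`M = 1`): every deterministic rule needs `2 ^ Ω(√(n / log n))` steps in the worst case. So,
  up to the logarithm, it cannot be better than the randomized rule Random-Facet, which makes
  `e ^ O(√n)` expected steps on all these functions (Gärtner).
* `M = 2 ^ r` rules: a randomized rule which uses at most `r` random bits altogether, or a deterministic
  rule which gets `r` bits of advice about the objective function, is such a family of rules. If
  `r ≤ (1 - ε) log₂ n`, then it makes at least `2 ^ Ω(n ^ ε / log n)` or `2 ^ Ω(√(n / log n))` steps,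
  whatever the random bits and the advice are.

Proof. The adversary of `AllDeterministicRules` (a starting file; it gives `2 ^ k` steps for one rule if
`k (k + 1) (3 k + 28) < n`) wipes out the recorded vertices by declaring hypersinks; a direction is
useless for a record if it does not wipe it. We show that records with many useless directions are
rare: all but `m (2 ^ i - 1)` records have at most `4 m j - 2 m i` useless directions after the epoch of
level `j`. So as long as there are many records left, the directions that are useless for many of them
are so few that a large part of the records can be wiped in one step, and `m = O(k log k)` steps suffice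
instead of `O(k ^ 2)`. The freezing of `m` coordinates gives a hypersink in which nothing is known, and
in which the next rule is treated.
-/

namespace Pool.Agent.Results.MP_4d246d_lc.FewRandomBits

open Finset Pool.Agent.TH70.AR

/-- **Any `M` deterministic pivot rules are slow on one and the same abstract objective function.** Let
`320 k (⌊log₂ k⌋ + 1) (4 k + M) ≤ n`. A rule sees the list of triples (visited vertex, its objective
value, its set of improving directions), the current one first, and names an improving direction. For
all rules `rule q`, `q < M`, and all start vertices `x₀ q` of the `n`-cube there is an injective objective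
function `f` with exactly one local maximum on every face (so that increasing paths of at most `n` steps
lead from every vertex to the maximum) such that each of the rules, started at its start vertex, reaches
the maximum after `L ≥ 2 ^ k` steps. -/
theorem result (n k M : ℕ) (hk : 1 ≤ k) (hM : 1 ≤ M)
    (hn : 320 * k * (Nat.log 2 k + 1) * (4 * k + M) ≤ n)
    (rule : Fin M → List ((Fin n → Bool) × ℕ × Finset (Fin n)) → Fin n)
    (hrule : ∀ (q : Fin M) (x : Fin n → Bool) (c : ℕ) (S : Finset (Fin n))
      (l : List ((Fin n → Bool) × ℕ × Finset (Fin n))), S.Nonempty → rule q ((x, c, S) :: l) ∈ S)
    (x₀ : Fin M → Fin n → Bool) :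
    ∃ f : (Fin n → Bool) → ℕ,
      Function.Injective f ∧
      (∀ (U : Finset (Fin n)) (x : Fin n → Bool), ∃! y : Fin n → Bool,
        (∀ i, i ∉ U → y i = x i) ∧ ∀ i ∈ U, f (flip y i) < f y) ∧
      (∀ x : Fin n → Bool, ∃ (m : ℕ) (v : ℕ → (Fin n → Bool)), m ≤ n ∧ v 0 = x ∧
        (∀ t < m, ∃ i ∈ improving f (v t), v (t + 1) = flip (v t) i) ∧
        improving f (v m) = ∅) ∧
      ∀ q : Fin M, ∃ (L : ℕ) (w : ℕ → (Fin n → Bool)),
        w 0 = x₀ q ∧
        (∀ t < L, (improving f (w t)).Nonempty ∧ w (t + 1) = flip (w t) (rule q (seen f w t))) ∧
        improving f (w L) = ∅ ∧ 2 ^ k ≤ L := by
  obtain ⟨f, h1, h2, h3⟩ := Pool.Agent.Q218.AR2.slow_many hk hn hM rule hrule x₀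
  exact ⟨f, h1, h2, short_path h2, h3⟩

end Pool.Agent.Results.MP_4d246d_lc.FewRandomBits
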