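import Pool.Agent.Q218.Known.Final
set_option autoImplicit false

/-!
# Knowing the polytope and the optimal vertex does not make a deterministic pivot rule fast

Linear programs can be solved in polynomial time by other algorithms, so a version of the simplex
method may know the optimal vertex from the beginning; its task is to find a short increasing path to
this vertex. On cubes (and products of simplices) this knowledge is decisive: from every vertex some
improving edge leads towards the optimal vertex, inside the smallest face containing both, and `n` such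
steps suffice for every objective function with one local maximum on each face. We show that it is
useless on simple polytopes.

There is an explicit simple polytope `P n` of dimension `n + 1` with `4 n + 2` facets and a vertex
`opt n` with the following property. A rule knows `P n`, the optimal vertex `opt n`, and all the
vertices visited so far with their objective values and their sets of improving neighbours; it may use
all this in any way (no bound on memory and computation). For any `M` such rules, started at vertices of
the facet `t = 0`, there is ONE objective function with exactly one local maximum on every face of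
`P n`, with maximum at `opt n`, to which increasing paths of at most `4 n + 2` steps lead from all
vertices, such that none of the rules has reached `opt n` after `2 ^ k` steps, whenever
`320 k (⌊log₂ k⌋ + 1) (4 k + M) ≤ n`. With `M = 2 ^ r` this covers rules which moreover get `r` arbitrary
bits of advice about the objective function, or use `r` random bits.

The polytope is a fibre product of hexagons: over a height `t` between `0` and `2 n + 1` we have a
box with sides `[a i (t), b i (t)]`, where each of the sides `a i` and `b i` bends inwards once, at the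
heights `2 i + 1` and `2 i + 2`. Its bottom facet is an `n`-cube, and the edges leaving the bottom facet
are not improving, except for the one at the best vertex `w` of the bottom facet. The `2 n` bends allow us
to move the maximum of the section from `w` to the vertex `(1, …, 1)` with one local maximum on each
face, changing one coordinate after the other. So a rule has to find `w`, and about `w` nothing is known.
On the bottom facet we use the lower bound for cubes (`FewRandomBits`, which builds on the starting file
`AllDeterministicRules`).
-/

namespace Pool.Agent.Results.MP_4d246d_lc.KnownOptimum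

/-- The polytope: all `(y, t)` with `0 ≤ t ≤ 2 n + 1` and, for all `i < n`, `0 ≤ y i ≤ 4 n + 4`,
`t ≤ y i + (2 i + 1)` and `t ≤ (4 n + 4 - y i) + (2 i + 2)`; these are `4 n + 2` inequalities. -/
def P (n : ℕ) : Set ((Fin n → ℝ) × ℝ) :=
  {p | 0 ≤ p.2 ∧ p.2 ≤ 2 * n + 1 ∧ ∀ i : Fin n, 0 ≤ p.1 i ∧ p.1 i ≤ 4 * n + 4 ∧
    p.2 ≤ p.1 i + (2 * (i : ℕ) + 1) ∧ p.2 ≤ (4 * n + 4 - p.1 i) + (2 * (i : ℕ) + 2)}

/-- The vertex which will be optimal. -/
def opt (n : ℕ) : (Fin n → ℝ) × ℝ := (fun i => 2 * n + 2 * (i : ℕ) + 5, 2 * n + 1)

variable {E : Type*} [AddCommGroup E] [Module ℝ E] [TopologicalSpace E]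

/-- `p` and `q` are vertices of `A` joined by an edge: the segment between them is a face, the set of
the maximisers of a linear functional on `A`. -/
def Edge (A : Set E) (p q : E) : Prop :=
  p ≠ q ∧ p ∈ A.extremePoints ℝ ∧ q ∈ A.extremePoints ℝ ∧ IsExposed ℝ A (segment ℝ p q)

/-- The improving neighbours of the vertex `v` for the objective function `φ`. -/
def improving (A : Set E) (φ : E → ℕ) (v : E) : Set E := {u | Edge A v u ∧ φ v < φ u}

/-- What a rule sees after the vertices `w 0, …, w t`: the visited vertices with their values and sets
of improving neighbours, the current vertex first. -/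
def seen (A : Set E) (φ : E → ℕ) (w : ℕ → E) : ℕ → List (E × ℕ × Set E)
  | 0 => [(w 0, φ (w 0), improving A φ (w 0))]
  | t + 1 => (w (t + 1), φ (w (t + 1)), improving A φ (w (t + 1))) :: seen A φ w t

/-- Abstract objective functions: different values at different vertices, and exactly one local
maximum on every nonempty face `F` (`F` is the set of the maximisers of a linear functional). -/
def AbstractObjective (A : Set E) (φ : E → ℕ) : Prop :=
  Set.InjOn φ (A.extremePoints ℝ) ∧ ∀ F : Set E, IsExposed ℝ A F → F.Nonempty →
    ∃! v, v ∈ F ∧ v ∈ A.extremePoints ℝ ∧ ∀ u ∈ F, Edge A v u → φ u < φ v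

/-- **Deterministic pivot rules which know the polytope and the optimal vertex are slow.** All
vertices of `P n` have exactly `n + 1` neighbours. For any `M` rules `rule q`, each of which chooses an
improving neighbour from what it has seen (and may depend on `P n` and `opt n` in any way), and for all
start vertices `s q` in the facet `t = 0` there is an abstract objective function `φ` of `P n` with
maximum `opt n` and increasing paths with at most `4 n + 2` steps from all vertices to `opt n`, such
that all the rules are still in the facet `t = 0` after `2 ^ k` steps, and have not reached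
`opt n`. -/
theorem result (n k M : ℕ) (hk : 1 ≤ k) (hM : 1 ≤ M)
    (hn : 320 * k * (Nat.log 2 k + 1) * (4 * k + M) ≤ n) :
    opt n ∈ (P n).extremePoints ℝ ∧
    (∀ v ∈ (P n).extremePoints ℝ, {u | Edge (P n) v u}.ncard = n + 1) ∧
    ∀ rule : Fin M → List (((Fin n → ℝ) × ℝ) × ℕ × Set ((Fin n → ℝ) × ℝ)) → (Fin n → ℝ) × ℝ,
      (∀ q v c S l, S.Nonempty → rule q ((v, c, S) :: l) ∈ S) →
      ∀ s : Fin M → (Fin n → ℝ) × ℝ, (∀ q, s q ∈ (P n).extremePoints ℝ ∧ (s q).2 = 0) →
      ∃ φ : (Fin n → ℝ) × ℝ → ℕ,
        AbstractObjective (P n) φ ∧
        (∀ v ∈ (P n).extremePoints ℝ, φ v ≤ φ (opt n)) ∧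
        (∀ v ∈ (P n).extremePoints ℝ, ∃ m ≤ 4 * n + 2, ∃ p : ℕ → (Fin n → ℝ) × ℝ, p 0 = v ∧
          p m = opt n ∧ ∀ t < m, Edge (P n) (p t) (p (t + 1)) ∧ φ (p t) < φ (p (t + 1))) ∧
        ∀ (q : Fin M) (w : ℕ → (Fin n → ℝ) × ℝ), w 0 = s q →
          (∀ t, (improving (P n) φ (w t)).Nonempty → w (t + 1) = rule q (seen (P n) φ w t)) →
          ∀ t ≤ 2 ^ k, w t ∈ (P n).extremePoints ℝ ∧ (w t).2 = 0 ∧ w t ≠ opt n := by
  have hn0 : 0 < n := by
    have : 0 < 320 * k * (Nat.log 2 k + 1) * (4 * k + M) := by positivity
    omega
  have hopt : Q218.Known.vt (fun _ => true) (n + 1) = opt n := by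
    unfold Q218.Known.vt opt
    rw [Q218.Known.hgt_top]
    refine Prod.ext ?_ rfl
    funext i
    show Q218.Known.pos n true (Q218.Known.off (fun _ => true) (n + 1) i) = _
    rw [Q218.Known.off_up _ le_rfl i (by have := i.2; omega), Q218.Known.hgt_top]
    simp only [Q218.Known.pos, Q218.Known.lev, if_true]
    ring
  have hopt2 : (opt n).2 ≠ 0 := by
    show (2 * (n : ℝ) + 1) ≠ 0
    positivity
  refine ⟨?_, fun v hv => Q218.Known.degree hv, ?_⟩
  · rw [← hopt]
    exact Q218.Known.vt_extreme _ le_rfl
  intro rule hrule s hs
  have hs' : ∀ q, ∃ x, s q = Q218.Known.vt x 0 := by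
    intro q
    obtain ⟨x, j, hj, h⟩ := Q218.Known.extreme_vt (hs q).1
    have h2 := (hs q).2
    rw [h] at h2
    have h3 := (Q218.Known.hgt_eq_zero x hj).1 h2
    exact ⟨x, by rw [h, h3]⟩
  choose x₀ hx₀ using hs'
  obtain ⟨φ, h1, h2, h3⟩ := Q218.Known.known hk hn hM hn0 rule hrule x₀
  refine ⟨φ, h1, ?_, ?_, ?_⟩
  · intro v hv
    obtain ⟨m, -, p, hp0, hpm, hp⟩ := h2 v hv
    have : ∀ t ≤ m, φ v ≤ φ (p t) := by
      intro t
      induction t with
      | zero => intro _; rw [hp0]
      | succ t ih => intro ht; exact (ih (by omega)).trans (hp t (by omega)).2.le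
    have := this m le_rfl
    rwa [hpm, hopt] at this
  · intro v hv
    obtain ⟨m, hm, p, hp0, hpm, hp⟩ := h2 v hv
    exact ⟨m, hm, p, hp0, by rw [hpm, hopt], hp⟩
  · intro q w hw0 hw t ht
    have hseen : ∀ t, Q218.Known.hist (Q218.Known.P n) φ w t = seen (P n) φ w t := by
      intro t
      induction t with
      | zero => rfl
      | succ t ih => rw [Q218.Known.hist, ih]; rfl
    obtain ⟨x, hx⟩ := h3 q w (by rw [hw0, hx₀]) (fun t ht => by
      rw [hseen]
      exact hw t ht) t ht
    have h4 : (w t).2 = 0 := by rw [hx]; exact Q218.Known.hgt_zero x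
    refine ⟨by rw [hx]; exact Q218.Known.vt_extreme x (by omega), h4, ?_⟩
    intro h
    rw [h] at h4
    exact hopt2 h4

end Pool.Agent.Results.MP_4d246d_lc.KnownOptimum
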