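import Pool.Agent.Q218.Local.Final
set_option autoImplicit false

/-!
# Local geometric information is enough for quasi-polynomially many pivots

Nondegenerate linear programs `max c x`, `a i x ≤ b i` with `m` constraints and `n` variables. A
pivot rule sees only the following of the linear program: the names and the normal vectors `a i` of
the constraints which are tight at the vertices visited so far, and which of the tight constraints
can be left along an improving edge. It sees neither the right-hand side, nor the objective
function, nor the coordinates of the vertices, nor the other constraints. There is a deterministic
rule of this kind which reaches an optimal vertex, or a vertex with an unbounded improving edge,
within `2 ^ (9 (log₂ m + 1) ^ 2)` pivots, and within `4 (m + 1) ^ 4 (D + 1)` pivots, if `D` is the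
maximal length of the shortest monotone paths to such vertices. So if this length is polynomial, as
a monotone version of the polynomial Hirsch conjecture says, then local information is enough for
polynomially many pivots. (In the abstract setting, where a rule does not see the normal vectors,
deterministic rules need exponentially many steps in a power of `n`, even on cubes.)

The proof. The rule keeps the known rows `a`, a set `Pb` of right-hand sides and a set `Pc` of
objective functions in general position, such that the linear program agrees with one of them, as
far as its vertices on the known rows are concerned; initially these are representatives of all sign
patterns, at most `(2 ^ m m + 1) ^ m` in number. Let `b` and `c` be centerpoints of `Pb` and `Pc`,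
moved a little to be in general position. Since all slacks are linear functions of the right-hand
side, and all reduced costs are linear functions of the objective, every prediction of the
linear program `a, b, c` is shared by at least the fraction `1 / (m + 1)` of the points. The rule
follows a shortest monotone path of this hypothesis. All predictions about feasibility at the
current vertex are right, and as long as the next vertices are as predicted, it goes on. If it
reaches a vertex which is not a vertex of the hypothesis, or if the improving edges are not as
predicted, then a fraction `1 / (m + 1)` of `Pb` or of `Pc` is gone; or it sees a new row, and there
are at most `m` of these. The length of the monotone paths is bounded by the recursion of Kalai and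
Kleitman.
-/

namespace Pool.Agent.Results.MP_4d246d_lc.LocalGeometry

open Pool.Agent.Q218.Local

/-- **A pivot rule which sees only the normal vectors of the tight constraints and the improving
edges at the visited vertices makes at most quasi-polynomially many pivots, and at most
polynomially many if there are monotone paths of polynomial length.** -/
theorem result (m n : ℕ) : ∃ r : List (View m n) → Option (Fin m),
    ∀ P : LP m n, P.Nondegenerate → ∀ v, P.Vertex v → ∃ N x, P.IsRun r v N x ∧
      N ≤ 2 ^ (9 * (Nat.log 2 m + 1) ^ 2) ∧
      ∀ D, Distance m n D → N ≤ 4 * (m + 1) ^ 4 * (D + 1) :=
  main m n

end Pool.Agent.Results.MP_4d246d_lc.LocalGeometry
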